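import Mathlib

set_option autoImplicit false

/-!
# A decreasing chain of ultrafilters without a greatest lower bound

Let `A = T 0`, `B = T 1`, `S_j = T (j + 2)` be disjoint infinite sets of primes and `𝒯 i` nonprincipal
ultrafilters with `T i ∈ 𝒯 i`.  We construct ultrafilters `ℱ_n` with
`ℱ_n = ℱ_{n+1} ⊙ 𝒯 (n % 2) ⊙ 𝒯 (n + 2)`.  They form a decreasing chain, `𝒯 0` and `𝒯 1` are lower
bounds, and no lower bound is above both of them.
-/

namespace Pool.Agent.Results.MP_26c4ab_lc.NoGreatestLowerBound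

open Filter

/-- Finite embeddability of sets: for every finite `F ⊆ A` there is `k` with `k F ⊆ B`. -/
def SetFE (A B : Set ℕ+) : Prop :=
  ∀ F : Set ℕ+, F.Finite → F ⊆ A → ∃ k : ℕ+, ∀ x ∈ F, k * x ∈ B

/-- Finite embeddability of ultrafilters: `U ≤_fe V` iff for every `B ∈ V` there is `A ∈ U` with
`A ≤_fe B`. -/
def FE (U V : Ultrafilter ℕ+) : Prop := ∀ B ∈ V, ∃ A ∈ U, SetFE A B

theorem FE.refl (U : Ultrafilter ℕ+) : FE U U := by
  intro B hB
  refine ⟨B, hB, fun F _ hF => ⟨1, fun x hx => ?_⟩⟩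
  rw [one_mul]
  exact hF hx

theorem FE.trans {U V W : Ultrafilter ℕ+} (h1 : FE U V) (h2 : FE V W) : FE U W := by
  intro C hC
  obtain ⟨B, hB, hBC⟩ := h2 C hC
  obtain ⟨A, hA, hAB⟩ := h1 B hB
  refine ⟨A, hA, fun F hF hFA => ?_⟩
  obtain ⟨k, hk⟩ := hAB F hF hFA
  obtain ⟨l, hl⟩ := hBC ((fun x => k * x) '' F) (hF.image _) (by
    rintro _ ⟨x, hx, rfl⟩
    exact hk x hx)
  refine ⟨l * k, fun x hx => ?_⟩
  rw [mul_assoc]
  exact hl _ ⟨x, hx, rfl⟩

/-- `βℕ` with the preorder `≤_fe`. -/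
def BetaN : Type := Ultrafilter ℕ+

instance : Preorder BetaN where
  le U V := FE U V
  le_refl U := FE.refl U
  le_trans _ _ _ h1 h2 := FE.trans h1 h2

/-- The quotient `βℕ / =_fe` with the partial order induced by `≤_fe`. -/
abbrev Classes : Type := Antisymmetrization BetaN (· ≤ ·)

/-- The class of an ultrafilter. -/
def cls (U : Ultrafilter ℕ+) : Classes := toAntisymmetrization (α := BetaN) (· ≤ ·) U

/-! ### Products of ultrafilters -/

/-- `U ⊙ V = {B : {x : {y : x y ∈ B} ∈ V} ∈ U}`. -/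
def mulU (U V : Ultrafilter ℕ+) : Ultrafilter ℕ+ :=
  Ultrafilter.bind U (fun x => Ultrafilter.map (fun y => x * y) V)

theorem mem_mulU (U V : Ultrafilter ℕ+) (B : Set ℕ+) :
    B ∈ mulU U V ↔ {x : ℕ+ | {y : ℕ+ | x * y ∈ B} ∈ V} ∈ U :=
  Iff.rfl

theorem le_mulU_left (U V : Ultrafilter ℕ+) : FE U (mulU U V) := by
  intro B hB
  rw [mem_mulU] at hB
  refine ⟨_, hB, fun F hF hFA => ?_⟩
  have h1 : ⋂ x ∈ F, {y : ℕ+ | x * y ∈ B} ∈ (V : Filter ℕ+) :=
    (Filter.biInter_mem hF).2 (fun x hx => hFA hx)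
  obtain ⟨k, hk⟩ := Ultrafilter.nonempty_of_mem (Ultrafilter.mem_coe.1 h1)
  refine ⟨k, fun x hx => ?_⟩
  simp only [Set.mem_iInter] at hk
  rw [mul_comm]
  exact hk x hx

theorem le_mulU_right (U V : Ultrafilter ℕ+) : FE V (mulU U V) := by
  intro B hB
  rw [mem_mulU] at hB
  obtain ⟨x, hx⟩ := Ultrafilter.nonempty_of_mem hB
  exact ⟨_, hx, fun F _ hFA => ⟨x, fun y hy => hFA hy⟩⟩

/-! ### The sets of primes -/

/-- The set `T i` of primes of class `i`. -/
def T (i : ℕ) : Set ℕ := {p | p.Prime ∧ (Nat.unpair (Nat.count Nat.Prime p)).1 = i}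

theorem T_prime {i p : ℕ} (h : p ∈ T i) : p.Prime := h.1

theorem T_inj {i j p : ℕ} (h : p ∈ T i) (h' : p ∈ T j) : i = j := h.2.symm.trans h'.2

/-- The `k`-th prime of class `i`. -/
noncomputable def tp (i k : ℕ) : ℕ := Nat.nth Nat.Prime (Nat.pair i k)

theorem tp_mem (i k : ℕ) : tp i k ∈ T i := by
  refine ⟨Nat.prime_nth_prime _, ?_⟩
  unfold tp
  rw [Nat.count_nth_of_infinite Nat.infinite_setOfPred_prime, Nat.unpair_pair]

theorem tp_inj (i : ℕ) : Function.Injective (tp i) := by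
  intro k l h
  have h1 := Nat.nth_injective Nat.infinite_setOfPred_prime h
  have h2 := congrArg Nat.unpair h1
  rw [Nat.unpair_pair, Nat.unpair_pair] at h2
  exact (Prod.mk.inj h2).2

/-- The same prime as a positive integer. -/
noncomputable def tpp (i k : ℕ) : ℕ+ := ⟨tp i k, (tp_mem i k).1.pos⟩

theorem tpp_inj (i : ℕ) : Function.Injective (tpp i) := by
  intro k l h
  apply tp_inj i
  exact congrArg (fun x : ℕ+ => (x : ℕ)) h

/-- A nonprincipal ultrafilter containing `T i`. -/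
noncomputable def TU (i : ℕ) : Ultrafilter ℕ+ := Ultrafilter.map (tpp i) (hyperfilter ℕ)

theorem TU_mem (i : ℕ) : {p : ℕ+ | (p : ℕ) ∈ T i} ∈ TU i := by
  show {k : ℕ | (tpp i k : ℕ) ∈ T i} ∈ hyperfilter ℕ
  exact Filter.mem_of_superset Filter.univ_mem (fun k _ => tp_mem i k)

theorem TU_gt (i N : ℕ) : {p : ℕ+ | N < (p : ℕ)} ∈ TU i := by
  show {k : ℕ | N < (tpp i k : ℕ)} ∈ hyperfilter ℕ
  apply Filter.mem_hyperfilter_of_finite_compl
  apply Set.Finite.subset
    (Set.Finite.preimage (tp_inj i).injOn (Set.finite_le_nat N))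
  intro k hk
  simp only [Set.mem_compl_iff, Set.mem_ofPred_eq, not_lt] at hk
  exact hk

/-! ### The combinatorics -/

/-- The sets `B_n` (as predicates): products of blocks `c_j s_j`, `n ≤ j < K`, with `c_j` a prime of
class `j % 2`, `s_j` a prime of class `j + 2`, `s_{j+1} < c_j < s_j`. -/
inductive BS : ℕ → ℕ → Prop
  | one (n : ℕ) : BS n 1
  | step (n x c s : ℕ) : BS (n + 1) x → c ∈ T (n % 2) → s ∈ T (n + 2) →
      (∀ p : ℕ, p.Prime → p ∣ x → p < c) → c < s → BS n (x * c * s)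

theorem BS.cases' {n N : ℕ} (h : BS n N) : N = 1 ∨ ∃ x c s, N = x * c * s ∧ BS (n + 1) x ∧
    c ∈ T (n % 2) ∧ s ∈ T (n + 2) ∧ (∀ p : ℕ, p.Prime → p ∣ x → p < c) ∧ c < s := by
  cases h with
  | one => exact Or.inl rfl
  | step _ x c s h1 h2 h3 h4 h5 => exact Or.inr ⟨x, c, s, rfl, h1, h2, h3, h4, h5⟩

theorem T_sep {n j s c : ℕ} (hs : s ∈ T (j + 2)) (hc : c ∈ T (n % 2)) : ¬ s ∣ c := by
  intro h
  have h1 := (Nat.prime_dvd_prime_iff_eq hs.1 hc.1).1 h
  subst h1
  have := T_inj hs hc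
  omega

theorem T_sep' {j i s c : ℕ} (hs : s ∈ T (j + 2)) (hc : c ∈ T (i + 2)) (h : s ∣ c) : j = i := by
  have h1 := (Nat.prime_dvd_prime_iff_eq hs.1 hc.1).1 h
  subst h1
  have := T_inj hs hc
  omega

theorem BS.idx {n N : ℕ} (h : BS n N) : ∀ {s j : ℕ}, s ∈ T (j + 2) → s ∣ N → n ≤ j := by
  induction h with
  | one n =>
    intro s j hs hd
    exact absurd (Nat.dvd_one.1 hd) hs.1.ne_one
  | step n x c t h1 h2 h3 h4 h5 ih =>
    intro s j hs hd
    rcases (Nat.Prime.dvd_mul hs.1).1 hd with hd | hd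
    · rcases (Nat.Prime.dvd_mul hs.1).1 hd with hd | hd
      · have := ih hs hd
        omega
      · exact absurd hd (T_sep hs h2)
    · have := T_sep' hs h3 hd
      omega

theorem BS.uniq {n N : ℕ} (h : BS n N) : ∀ {s s' j : ℕ}, s ∈ T (j + 2) → s' ∈ T (j + 2) →
    ¬ s * s' ∣ N := by
  induction h with
  | one n =>
    intro s s' j hs hs' hd
    exact absurd (Nat.dvd_one.1 ((Dvd.intro _ rfl).trans hd)) hs.1.ne_one
  | step n x c t h1 h2 h3 h4 h5 ih =>
    intro s s' j hs hs' hd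
    by_cases hj : j = n
    · subst hj
      have key : ∀ r, r ∈ T (j + 2) → r ∣ x * c * t → r = t := by
        intro r hr hrd
        rcases (Nat.Prime.dvd_mul hr.1).1 hrd with hd | hd
        · rcases (Nat.Prime.dvd_mul hr.1).1 hd with hd | hd
          · have := h1.idx hr hd
            omega
          · exact absurd hd (T_sep hr h2)
        · exact (Nat.prime_dvd_prime_iff_eq hr.1 h3.1).1 hd
      have e1 := key s hs ((Dvd.intro _ rfl).trans hd)
      have e2 := key s' hs' ((Dvd.intro_left _ rfl).trans hd)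
      rw [e1] at hs
      rw [e1, e2] at hd
      have h6 : t ∣ x * c := Nat.dvd_of_mul_dvd_mul_right hs.1.pos hd
      rcases (Nat.Prime.dvd_mul hs.1).1 h6 with hd | hd
      · have := h1.idx hs hd
        omega
      · exact absurd hd (T_sep hs h2)
    · have hcop : ∀ r, r ∈ T (j + 2) → Nat.Coprime r t ∧ Nat.Coprime r c := by
        intro r hr
        constructor
        · apply (Nat.Prime.coprime_iff_not_dvd hr.1).2
          intro h6
          exact hj (T_sep' hr h3 h6)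
        · exact (Nat.Prime.coprime_iff_not_dvd hr.1).2 (T_sep hr h2)
      have c1 : Nat.Coprime (s * s') t := Nat.Coprime.mul_left (hcop s hs).1 (hcop s' hs').1
      have c2 : Nat.Coprime (s * s') c := Nat.Coprime.mul_left (hcop s hs).2 (hcop s' hs').2
      exact ih hs hs' (c2.dvd_of_dvd_mul_right (c1.dvd_of_dvd_mul_right hd))

theorem BS.down {n N : ℕ} (h : BS n N) : ∀ {s' j j' : ℕ}, s' ∈ T (j' + 2) → s' ∣ N → n ≤ j →
    j ≤ j' → ∃ s ∈ T (j + 2), s ∣ N := by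
  induction h with
  | one n =>
    intro s' j j' hs hd
    exact absurd (Nat.dvd_one.1 hd) hs.1.ne_one
  | step n x c t h1 h2 h3 h4 h5 ih =>
    intro s' j j' hs hd hnj hjj
    by_cases hj : j = n
    · subst hj
      exact ⟨t, h3, Dvd.intro_left _ rfl⟩
    · rcases (Nat.Prime.dvd_mul hs.1).1 hd with hd | hd
      · rcases (Nat.Prime.dvd_mul hs.1).1 hd with hd | hd
        · obtain ⟨s, hs1, hs2⟩ := ih hs hd (by omega) hjj
          exact ⟨s, hs1, Dvd.dvd.mul_right (Dvd.dvd.mul_right hs2 c) t⟩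
        · exact absurd hd (T_sep hs h2)
      · have := T_sep' hs h3 hd
        omega

theorem BS.top {n N p : ℕ} (h : BS n N) (hp : p.Prime) (hd : p ∣ N) :
    ∃ s i, s ∈ T (i + 2) ∧ s ∣ N ∧ p ≤ s := by
  rcases h.cases' with h1 | ⟨x, c, s, rfl, h1, h2, h3, h4, h5⟩
  · subst h1
    exact absurd (Nat.dvd_one.1 hd) hp.ne_one
  · refine ⟨s, n, h3, Dvd.intro_left _ rfl, ?_⟩
    rcases (Nat.Prime.dvd_mul hp).1 hd with hd | hd
    · rcases (Nat.Prime.dvd_mul hp).1 hd with hd | hd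
      · have := h4 p hp hd
        omega
      · rw [(Nat.prime_dvd_prime_iff_eq hp h2.1).1 hd]
        omega
    · rw [(Nat.prime_dvd_prime_iff_eq hp h3.1).1 hd]

/-- `x` has no prime divisors of classes `≥ 2`. -/
def NoS (x : ℕ) : Prop := ∀ s i : ℕ, s ∈ T (i + 2) → ¬ s ∣ x

theorem transfer {n m x y x1 x2 c c2 : ℕ} (hx2 : BS (n + 1) x2)
    (hc : c ∈ T (n % 2)) (hc2 : c2 ∈ T (n % 2))
    (hlt : ∀ p : ℕ, p.Prime → p ∣ x1 → p < c)
    (e1 : m * x = x1 * c) (e2 : m * y = x2 * c2) (hy : NoS y) (hcm : c ∣ m) : c = c2 := by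
  by_contra hne
  have h1 : c ∣ x2 * c2 := e2 ▸ Dvd.dvd.mul_right hcm y
  have h2 : c ∣ x2 := by
    rcases (Nat.Prime.dvd_mul hc.1).1 h1 with h | h
    · exact h
    · exact absurd ((Nat.prime_dvd_prime_iff_eq hc.1 hc2.1).1 h) hne
  obtain ⟨s, i, hs, hsd, hle⟩ := hx2.top hc.1 h2
  have h3 : s ∣ m * y := by
    rw [e2]
    exact Dvd.dvd.mul_right hsd c2
  have h4 : s ∣ m := ((Nat.Prime.dvd_mul hs.1).1 h3).resolve_right (hy s i hs)
  have h5 : s ∣ x1 * c := e1 ▸ Dvd.dvd.mul_right h4 x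
  have h6 : s ∣ x1 := ((Nat.Prime.dvd_mul hs.1).1 h5).resolve_right (T_sep hs hc)
  have := hlt s hs.1 h6
  omega

theorem main_claim {n N : ℕ} (h : BS n N) : ∀ {m x y : ℕ}, N = m * x → BS n (m * y) → NoS x →
    NoS y → (x = 1 ∧ y = 1) ∨ (∃ j, x ∈ T (j % 2) ∧ y ∈ T (j % 2)) ∨
      (x ≠ 1 ∧ y ≠ 1 ∧ ∃ p : ℕ, p.Prime ∧ p ∣ y ∧ p < x) := by
  induction h with
  | one n =>
    intro m x y hN hy hnx hny
    have hx1 : x = 1 := Nat.eq_one_of_mul_eq_one_left hN.symm
    have hm1 : m = 1 := Nat.eq_one_of_mul_eq_one_right hN.symm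
    left
    refine ⟨hx1, ?_⟩
    rw [hm1, one_mul] at hy
    rcases hy.cases' with h1 | ⟨x, c, s, h0, h1, h2, h3, h4, h5⟩
    · exact h1
    · exfalso
      apply hny s n h3
      rw [h0]
      exact Dvd.intro_left _ rfl
  | step n x1 c s h1 h2 h3 h4 h5 ih =>
    intro m x y hN hy hnx hny
    have hsm : s ∣ m := by
      have : s ∣ m * x := hN ▸ Dvd.intro_left _ rfl
      exact ((Nat.Prime.dvd_mul h3.1).1 this).resolve_right (hnx s n h3)
    obtain ⟨m', rfl⟩ := hsm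
    rcases hy.cases' with hy1 | ⟨x2, c2, s2, hy0, hy1, hy2, hy3, hy4, hy5⟩
    · exfalso
      have : s ∣ 1 := hy1 ▸ Dvd.dvd.mul_right (Dvd.intro _ rfl) y
      exact h3.1.ne_one (Nat.dvd_one.1 this)
    · have hss : s = s2 := by
        have : s ∣ x2 * c2 * s2 := hy0 ▸ Dvd.dvd.mul_right (Dvd.intro _ rfl) y
        rcases (Nat.Prime.dvd_mul h3.1).1 this with hd | hd
        · rcases (Nat.Prime.dvd_mul h3.1).1 hd with hd | hd
          · have := hy1.idx h3 hd
            omega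
          · exact absurd hd (T_sep h3 hy2)
        · exact (Nat.prime_dvd_prime_iff_eq h3.1 hy3.1).1 hd
      subst hss
      have e1 : m' * x = x1 * c := by
        apply Nat.eq_of_mul_eq_mul_left h3.1.pos
        rw [← mul_assoc, ← hN]
        ring
      have e2 : m' * y = x2 * c2 := by
        apply Nat.eq_of_mul_eq_mul_left h3.1.pos
        rw [← mul_assoc, hy0]
        ring
      by_cases hcm : c ∣ m'
      · have hcc := transfer hy1 h2 hy2 h4 e1 e2 hny hcm
        subst hcc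
        obtain ⟨m2, rfl⟩ := hcm
        have e3 : x1 = m2 * x := by
          apply Nat.eq_of_mul_eq_mul_left h2.1.pos
          rw [mul_comm c x1, ← e1]
          ring
        have e4 : x2 = m2 * y := by
          apply Nat.eq_of_mul_eq_mul_left h2.1.pos
          rw [mul_comm c x2, ← e2]
          ring
        exact ih e3 (e4 ▸ hy1) hnx hny
      · have hc2m : ¬ c2 ∣ m' := by
          intro h6
          have hcc := transfer h1 hy2 h2 hy4 e2 e1 hnx h6
          rw [hcc] at h6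
          exact hcm h6
        have hcx : c ∣ x := by
          have : c ∣ m' * x := e1 ▸ Dvd.intro_left _ rfl
          exact ((Nat.Prime.dvd_mul h2.1).1 this).resolve_left hcm
        have hcy : c2 ∣ y := by
          have : c2 ∣ m' * y := e2 ▸ Dvd.intro_left _ rfl
          exact ((Nat.Prime.dvd_mul hy2.1).1 this).resolve_left hc2m
        obtain ⟨x', rfl⟩ := hcx
        obtain ⟨y', rfl⟩ := hcy
        have e3 : x1 = m' * x' := by
          apply Nat.eq_of_mul_eq_mul_left h2.1.pos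
          rw [mul_comm c x1, ← e1]
          ring
        have e4 : x2 = m' * y' := by
          apply Nat.eq_of_mul_eq_mul_left hy2.1.pos
          rw [mul_comm c2 x2, ← e2]
          ring
        have hnx' : NoS x' := fun s i hs hd => hnx s i hs (Dvd.dvd.mul_left hd c)
        have hny' : NoS y' := fun s i hs hd => hny s i hs (Dvd.dvd.mul_left hd c2)
        have hih := ih e3 (e4 ▸ hy1) hnx' hny'
        have hor : (x' = 1 ∧ y' = 1) ∨ y' ≠ 1 := by
          rcases hih with h | ⟨j, h, h'⟩ | ⟨h, h', _⟩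
          · exact Or.inl h
          · exact Or.inr h'.1.ne_one
          · exact Or.inr h'
        rcases hor with ⟨rfl, rfl⟩ | hy'
        · right; left
          exact ⟨n, by simpa using h2, by simpa using hy2⟩
        · right; right
          have hxne : c * x' ≠ 1 := by
            intro h0
            exact h2.1.ne_one (Nat.eq_one_of_mul_eq_one_right h0)
          have hyne : c2 * y' ≠ 1 := by
            intro h0
            exact hy2.1.ne_one (Nat.eq_one_of_mul_eq_one_right h0)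
          refine ⟨hxne, hyne, ?_⟩
          obtain ⟨p, hp, hpd⟩ := Nat.exists_prime_and_dvd hy'
          have hpx2 : p ∣ x2 := e4 ▸ Dvd.dvd.mul_left hpd m'
          obtain ⟨t, i, ht, htd, hle⟩ := hy1.top hp hpx2
          have h6 : t ∣ m' * y' := e4 ▸ htd
          have h7 : t ∣ m' := ((Nat.Prime.dvd_mul ht.1).1 h6).resolve_right (hny' t i ht)
          have h8 : t ∣ x1 := e3 ▸ Dvd.dvd.mul_right h7 x'
          have h9 := h4 t ht.1 h8
          refine ⟨p, hp, Dvd.dvd.mul_left hpd c2, ?_⟩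
          have hx'0 : x' ≠ 0 := by
            rintro rfl
            rw [mul_zero] at e3
            subst e3
            have := h4 (c + 1)
            obtain ⟨r, hr1, hr2⟩ := Nat.exists_infinite_primes (c + 1)
            have := h4 r hr2 (dvd_zero r)
            omega
          have : c ≤ c * x' := Nat.le_mul_of_pos_right c (Nat.pos_of_ne_zero hx'0)
          omega

/-! ### The ultrafilters `ℱ_n` -/

/-- Finite products of `k` blocks, starting with block `n`. -/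
noncomputable def FP : ℕ → ℕ → Ultrafilter ℕ+
  | _, 0 => pure 1
  | n, k + 1 => mulU (mulU (FP (n + 1) k) (TU (n % 2))) (TU (n + 2))

/-- The ultrafilter `ℱ_n`. -/
noncomputable def FF (n : ℕ) : Ultrafilter ℕ+ :=
  Ultrafilter.bind (hyperfilter ℕ) (fun K => FP n (K - n))

theorem mem_FF (n : ℕ) (A : Set ℕ+) :
    A ∈ FF n ↔ {K : ℕ | A ∈ FP n (K - n)} ∈ (hyperfilter ℕ : Ultrafilter ℕ) :=
  Iff.rfl

theorem FF_eq (n : ℕ) : FF n = mulU (mulU (FF (n + 1)) (TU (n % 2))) (TU (n + 2)) := by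
  apply Ultrafilter.ext
  intro A
  rw [mem_mulU, mem_mulU, mem_FF, mem_FF]
  have hcof : {K : ℕ | n < K} ∈ (hyperfilter ℕ : Ultrafilter ℕ) := by
    apply Filter.mem_hyperfilter_of_finite_compl
    apply (Set.finite_le_nat n).subset
    intro j hj
    simpa using hj
  have key : ∀ K : ℕ, n < K → (A ∈ FP n (K - n) ↔
      {x : ℕ+ | {y : ℕ+ | x * y ∈ {x : ℕ+ | {y : ℕ+ | x * y ∈ A} ∈ TU (n + 2)}} ∈ TU (n % 2)} ∈
        FP (n + 1) (K - (n + 1))) := by
    intro K hK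
    have e : K - n = (K - (n + 1)) + 1 := by omega
    rw [e]
    exact Iff.rfl
  constructor
  · intro h
    refine Filter.mem_of_superset (Filter.inter_mem h hcof) ?_
    intro K hK
    exact (key K hK.2).1 hK.1
  · intro h
    refine Filter.mem_of_superset (Filter.inter_mem h hcof) ?_
    intro K hK
    exact (key K hK.2).2 hK.1

theorem FF_of_FP (n : ℕ) (A : Set ℕ+) (h : ∀ k, A ∈ FP n k) : A ∈ FF n := by
  rw [mem_FF]
  exact Filter.mem_of_superset Filter.univ_mem (fun K _ => h _)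

theorem BS_FP : ∀ k n : ℕ, {x : ℕ+ | BS n (x : ℕ)} ∈ FP n k := by
  intro k
  induction k with
  | zero =>
    intro n
    show {x : ℕ+ | BS n (x : ℕ)} ∈ (pure 1 : Ultrafilter ℕ+)
    rw [Ultrafilter.mem_pure]
    exact BS.one n
  | succ k ih =>
    intro n
    show {x : ℕ+ | {c : ℕ+ | {s : ℕ+ | BS n ((x * c * s : ℕ+) : ℕ)} ∈ TU (n + 2)} ∈ TU (n % 2)} ∈
      FP (n + 1) k
    refine Filter.mem_of_superset (ih (n + 1)) ?_
    intro x hx
    show {c : ℕ+ | {s : ℕ+ | BS n ((x * c * s : ℕ+) : ℕ)} ∈ TU (n + 2)} ∈ TU (n % 2)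
    refine Filter.mem_of_superset (Filter.inter_mem (TU_mem (n % 2)) (TU_gt (n % 2) x)) ?_
    intro c hc
    show {s : ℕ+ | BS n ((x * c * s : ℕ+) : ℕ)} ∈ TU (n + 2)
    refine Filter.mem_of_superset (Filter.inter_mem (TU_mem (n + 2)) (TU_gt (n + 2) c)) ?_
    intro s hs
    have goal : BS n ((x : ℕ) * (c : ℕ) * (s : ℕ)) → BS n ((x * c * s : ℕ+) : ℕ) := by
      intro h
      rw [PNat.mul_coe, PNat.mul_coe]
      exact h
    apply goal
    refine BS.step n x c s hx hc.1 hs.1 ?_ hs.2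
    intro p _ hpd
    exact lt_of_le_of_lt (Nat.le_of_dvd x.pos hpd) hc.2

theorem ndvd_FP (p : ℕ) (hp : p.Prime) : ∀ k n : ℕ, {x : ℕ+ | ¬ p ∣ (x : ℕ)} ∈ FP n k := by
  intro k
  induction k with
  | zero =>
    intro n
    show {x : ℕ+ | ¬ p ∣ (x : ℕ)} ∈ (pure 1 : Ultrafilter ℕ+)
    rw [Ultrafilter.mem_pure]
    show ¬ p ∣ 1
    intro h
    exact hp.ne_one (Nat.dvd_one.1 h)
  | succ k ih =>
    intro n
    show {x : ℕ+ | {c : ℕ+ | {s : ℕ+ | ¬ p ∣ ((x * c * s : ℕ+) : ℕ)} ∈ TU (n + 2)} ∈ TU (n % 2)} ∈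
      FP (n + 1) k
    refine Filter.mem_of_superset (ih (n + 1)) ?_
    intro x hx
    show {c : ℕ+ | {s : ℕ+ | ¬ p ∣ ((x * c * s : ℕ+) : ℕ)} ∈ TU (n + 2)} ∈ TU (n % 2)
    refine Filter.mem_of_superset (Filter.inter_mem (TU_mem (n % 2)) (TU_gt (n % 2) p)) ?_
    intro c hc
    show {s : ℕ+ | ¬ p ∣ ((x * c * s : ℕ+) : ℕ)} ∈ TU (n + 2)
    refine Filter.mem_of_superset (Filter.inter_mem (TU_mem (n + 2)) (TU_gt (n + 2) p)) ?_
    intro s hs
    show ¬ p ∣ ((x * c * s : ℕ+) : ℕ)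
    rw [PNat.mul_coe, PNat.mul_coe]
    intro hd
    have hc1 : (c : ℕ) ∈ T (n % 2) := hc.1
    have hc2 : p < (c : ℕ) := hc.2
    have hs1 : (s : ℕ) ∈ T (n + 2) := hs.1
    have hs2 : p < (s : ℕ) := hs.2
    rcases (Nat.Prime.dvd_mul hp).1 hd with hd | hd
    · rcases (Nat.Prime.dvd_mul hp).1 hd with hd | hd
      · exact hx hd
      · rw [(Nat.prime_dvd_prime_iff_eq hp hc1.1).1 hd] at hc2
        omega
    · rw [(Nat.prime_dvd_prime_iff_eq hp hs1.1).1 hd] at hs2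
      omega

theorem BS_FF (n : ℕ) : {x : ℕ+ | BS n (x : ℕ)} ∈ FF n := FF_of_FP n _ (fun k => BS_FP k n)

theorem ndvd_FF (p : ℕ) (hp : p.Prime) (n : ℕ) : {x : ℕ+ | ¬ p ∣ (x : ℕ)} ∈ FF n :=
  FF_of_FP n _ (fun k => ndvd_FP p hp k n)

theorem FF_succ_le (n : ℕ) : FE (FF (n + 1)) (FF n) := by
  rw [FF_eq n]
  exact (le_mulU_left _ _).trans (le_mulU_left _ _)

theorem FF_antitone (i j : ℕ) (h : i ≤ j) : FE (FF j) (FF i) := by
  induction h with
  | refl => exact FE.refl _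
  | step _ ih => exact (FF_succ_le _).trans ih

theorem TU_le (n : ℕ) : FE (TU (n % 2)) (FF n) := by
  rw [FF_eq n]
  exact (le_mulU_right _ _).trans (le_mulU_left _ _)

theorem TU_le' (i : ℕ) (hi : i < 2) (n : ℕ) : FE (TU i) (FF n) := by
  by_cases h : n % 2 = i
  · rw [← h]
    exact TU_le n
  · have h1 : (n + 1) % 2 = i := by omega
    rw [← h1]
    exact (TU_le (n + 1)).trans (FF_succ_le n)

/-! ### No lower bound of the chain is above both `𝒯 0` and `𝒯 1` -/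

theorem SetFE.two {A B : Set ℕ+} (h : SetFE A B) {x y : ℕ+} (hx : x ∈ A) (hy : y ∈ A) :
    ∃ k : ℕ+, k * x ∈ B ∧ k * y ∈ B := by
  obtain ⟨k, hk⟩ := h {x, y} (Set.toFinite _) (by
    intro z hz
    rcases hz with rfl | rfl
    · exact hx
    · exact hy)
  exact ⟨k, hk x (by simp), hk y (by simp)⟩

theorem no_common {G : Ultrafilter ℕ+} (hG : ∀ n, FE G (FF n)) (h0 : FE (TU 0) G)
    (h1 : FE (TU 1) G) : False := by
  classical
  choose Gs hGs hGsB using fun n => hG n _ (BS_FF n)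
  -- most elements of G₀ have no prime divisors of class ≥ 2
  have hno : {x : ℕ+ | NoS (x : ℕ)} ∈ G := by
    by_contra hcon
    have hcon' : {x : ℕ+ | NoS (x : ℕ)}ᶜ ∈ G := Ultrafilter.compl_mem_iff_notMem.2 hcon
    obtain ⟨x, hx1, hx2⟩ := Ultrafilter.nonempty_of_mem (Filter.inter_mem (hGs 0) hcon')
    have hx3 : ¬ NoS (x : ℕ) := hx2
    unfold NoS at hx3
    push Not at hx3
    obtain ⟨s, d, hs, hsd⟩ := hx3
    obtain ⟨y, hy1, hy2, hy3⟩ := Ultrafilter.nonempty_of_mem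
      (Filter.inter_mem (hGs 0) (Filter.inter_mem (hGs (d + 1)) hcon'))
    have hy4 : ¬ NoS (y : ℕ) := hy3
    unfold NoS at hy4
    push Not at hy4
    obtain ⟨s', d', hs', hsd'⟩ := hy4
    -- y divides an element of B_{d+1}
    obtain ⟨k, hk, -⟩ := (hGsB (d + 1)).two hy2 hy2
    have hk' : BS (d + 1) ((k : ℕ) * (y : ℕ)) := by
      rw [← PNat.mul_coe]
      exact hk
    have hynoS : ∀ r, r ∈ T (d + 2) → ¬ r ∣ (y : ℕ) := by
      intro r hr hrd
      have := hk'.idx hr (Dvd.dvd.mul_left hrd _)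
      omega
    have hdd : d + 1 ≤ d' := hk'.idx hs' (Dvd.dvd.mul_left hsd' _)
    obtain ⟨m, hm1, hm2⟩ := (hGsB 0).two hx1 hy1
    have hm1' : BS 0 ((m : ℕ) * (x : ℕ)) := by
      rw [← PNat.mul_coe]
      exact hm1
    have hm2' : BS 0 ((m : ℕ) * (y : ℕ)) := by
      rw [← PNat.mul_coe]
      exact hm2
    obtain ⟨r, hr, hrd⟩ := hm2'.down hs' (Dvd.dvd.mul_left hsd' _) (Nat.zero_le d) (by omega)
    have hrm : r ∣ (m : ℕ) := ((Nat.Prime.dvd_mul hr.1).1 hrd).resolve_right (hynoS r hr)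
    exact hm1'.uniq hr hs (mul_dvd_mul hrm hsd)
  obtain ⟨x, hx1, hx2⟩ := Ultrafilter.nonempty_of_mem (Filter.inter_mem (hGs 0) hno)
  have hx3 : NoS (x : ℕ) := hx2
  have hmain : ∀ y : ℕ+, y ∈ Gs 0 ∩ {x : ℕ+ | NoS (x : ℕ)} →
      ((x : ℕ) = 1 ∧ (y : ℕ) = 1) ∨ (∃ j, (x : ℕ) ∈ T (j % 2) ∧ (y : ℕ) ∈ T (j % 2)) ∨
      ((x : ℕ) ≠ 1 ∧ (y : ℕ) ≠ 1 ∧ ∃ p : ℕ, p.Prime ∧ p ∣ (y : ℕ) ∧ p < (x : ℕ)) := by
    intro y hy
    obtain ⟨m, hm1, hm2⟩ := (hGsB 0).two hx1 hy.1
    have hm1' : BS 0 ((m : ℕ) * (x : ℕ)) := by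
      rw [← PNat.mul_coe]
      exact hm1
    have hm2' : BS 0 ((m : ℕ) * (y : ℕ)) := by
      rw [← PNat.mul_coe]
      exact hm2
    exact main_claim hm1' rfl hm2' hx3 hy.2
  have hZ := Filter.inter_mem (hGs 0) hno
  -- three cases
  have hcases : ({1} : Set ℕ+) ∈ G ∨ {y : ℕ+ | ∃ j, (x : ℕ) ∈ T (j % 2) ∧ (y : ℕ) ∈ T (j % 2)} ∈ G ∨
      {y : ℕ+ | ∃ p : ℕ, p.Prime ∧ p ∣ (y : ℕ) ∧ p < (x : ℕ)} ∈ G := by
    have h2 : ({1} : Set ℕ+) ∪ ({y : ℕ+ | ∃ j, (x : ℕ) ∈ T (j % 2) ∧ (y : ℕ) ∈ T (j % 2)} ∪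
      {y : ℕ+ | ∃ p : ℕ, p.Prime ∧ p ∣ (y : ℕ) ∧ p < (x : ℕ)}) ∈ G := by
      refine Filter.mem_of_superset hZ ?_
      intro y hy
      rcases hmain y hy with h | h | h
      · left
        exact PNat.coe_eq_one_iff.1 h.2
      · right; left; exact h
      · right; right; exact h.2.2
    rcases Ultrafilter.union_mem_iff.1 h2 with h | h
    · exact Or.inl h
    · exact Or.inr (Ultrafilter.union_mem_iff.1 h)
  rcases hcases with hc | hc | hc
  · -- G is principal at 1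
    obtain ⟨A, hA, hA1⟩ := h0 _ hc
    obtain ⟨a, ha⟩ := Ultrafilter.nonempty_of_mem hA
    obtain ⟨a', ha', haa⟩ := Ultrafilter.nonempty_of_mem (Filter.inter_mem hA (TU_gt 0 a))
    obtain ⟨k, hk1, hk2⟩ := hA1.two ha ha'
    have e1 : k * a = 1 := hk1
    have e2 : k * a' = 1 := hk2
    have e3 : a = a' := by
      apply mul_left_cancel (a := k)
      rw [e1, e2]
    rw [e3] at haa
    have haa' : (a' : ℕ) < (a' : ℕ) := haa
    omega
  · -- one slot
    have key : ∀ i i', i < 2 → i' < 2 → i ≠ i' → FE (TU i') G → (x : ℕ) ∈ T i → False := by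
      intro i i' _ _ hii hle hxi
      have h2 : {y : ℕ+ | (y : ℕ) ∈ T i} ∈ G := by
        refine Filter.mem_of_superset hc ?_
        intro y hy
        obtain ⟨j, hj1, hj2⟩ := hy
        have := T_inj hj1 hxi
        rw [this] at hj2
        exact hj2
      obtain ⟨A, hA, hA1⟩ := hle _ h2
      obtain ⟨a, ha, ha'⟩ := Ultrafilter.nonempty_of_mem (Filter.inter_mem hA (TU_mem i'))
      obtain ⟨k, hk, -⟩ := hA1.two ha ha
      have hk' : ((k * a : ℕ+) : ℕ) ∈ T i := hk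
      have ha2 : (a : ℕ) ∈ T i' := ha'
      have hd : (a : ℕ) ∣ ((k * a : ℕ+) : ℕ) := by
        rw [PNat.mul_coe]
        exact Dvd.intro_left _ rfl
      have h3 := (Nat.prime_dvd_prime_iff_eq ha2.1 hk'.1).1 hd
      rw [← h3] at hk'
      exact hii (T_inj hk' ha2)
    obtain ⟨y, j, hj1, hj2⟩ := Ultrafilter.nonempty_of_mem hc
    have hj3 : j % 2 = 0 ∨ j % 2 = 1 := by omega
    rcases hj3 with hj | hj
    · rw [hj] at hj1
      exact key 0 1 (by omega) (by omega) (by omega) h1 hj1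
    · rw [hj] at hj1
      exact key 1 0 (by omega) (by omega) (by omega) h0 hj1
  · -- at least two slots: some prime divides G-most elements
    have h2 : ⋃ p ∈ Finset.range (x : ℕ), {y : ℕ+ | p.Prime ∧ p ∣ (y : ℕ)} ∈ G := by
      refine Filter.mem_of_superset hc ?_
      intro y hy
      obtain ⟨p, hp1, hp2, hp3⟩ := hy
      simp only [Set.mem_iUnion]
      exact ⟨p, Finset.mem_range.2 hp3, hp1, hp2⟩
    have h3 : ∃ p ∈ Finset.range (x : ℕ), {y : ℕ+ | p.Prime ∧ p ∣ (y : ℕ)} ∈ G :=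
      (Ultrafilter.finite_biUnion_mem_iff (Finset.finite_toSet _)).1 h2
    obtain ⟨p, -, hp⟩ := h3
    obtain ⟨_, hpp, -⟩ := Ultrafilter.nonempty_of_mem hp
    obtain ⟨A, hA, hA1⟩ := hG 0 _ (ndvd_FF p hpp 0)
    obtain ⟨y, hy1, hy2⟩ := Ultrafilter.nonempty_of_mem (Filter.inter_mem hA hp)
    obtain ⟨k, hk, -⟩ := hA1.two hy1 hy1
    have hk' : ¬ p ∣ ((k * y : ℕ+) : ℕ) := hk
    apply hk'
    rw [PNat.mul_coe]
    exact Dvd.dvd.mul_left hy2.2 _

/-- **Answer to Q1 (disproof).**  There is a `≤_fe`-decreasing chain of type `ℕ` in `βℕ / =_fe`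
which has no greatest lower bound.  (The first conjunct says that the classes of the ultrafilters
`F i` form a decreasing chain, the second that this chain has no greatest lower bound in the
partially ordered set of classes; the third and fourth say the same in terms of ultrafilters.) -/
theorem result : ∃ F : ℕ → Ultrafilter ℕ+,
    Antitone (fun i => cls (F i)) ∧
    (¬ ∃ g : Classes, IsGLB (Set.range (fun i => cls (F i))) g) ∧
    (∀ i j : ℕ, i ≤ j → FE (F j) (F i)) ∧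
    (¬ ∃ G : Ultrafilter ℕ+, (∀ i, FE G (F i)) ∧
      ∀ H : Ultrafilter ℕ+, (∀ i, FE H (F i)) → FE H G) := by
  have hle : ∀ U V : Ultrafilter ℕ+, cls U ≤ cls V ↔ FE U V := fun U V => Iff.rfl
  have hno : ¬ ∃ G : Ultrafilter ℕ+, (∀ i, FE G (FF i)) ∧
      ∀ H : Ultrafilter ℕ+, (∀ i, FE H (FF i)) → FE H G := by
    rintro ⟨G, hG, hmax⟩
    exact no_common hG (hmax _ (TU_le' 0 (by omega))) (hmax _ (TU_le' 1 (by omega)))
  refine ⟨FF, fun i j hij => (hle _ _).2 (FF_antitone i j hij), ?_, FF_antitone, hno⟩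
  rintro ⟨g, hg⟩
  induction g using Quotient.inductionOn' with
  | h G =>
    apply hno
    refine ⟨G, fun i => ?_, fun H hH => ?_⟩
    · exact hg.1 ⟨i, rfl⟩
    · have h2 : cls H ∈ lowerBounds (Set.range (fun i => cls (FF i))) := by
        rintro _ ⟨i, rfl⟩
        exact hH i
      exact hg.2 h2

end Pool.Agent.Results.MP_26c4ab_lc.NoGreatestLowerBound
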